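import Pool.Agent.Q155.GN.Ends
import Pool.Agent.Q155.GN.Fin3

/-!
# The Birch-Swinnerton-Dyer rank conjecture over the divisors of almost all Gaussian integers

`K` is a number field with an isomorphism `e` of `ℤ[i]` with its ring of integers (so `K = ℚ(i)`), and
`E_D : y² = x³ - D² x` the quadratic twist by `D` of `y² = x³ - x`. There is one set `S` of squarefree Gaussian integers
`≡ 1 mod 2 + 2i`, of relative density one in the order of the norm, such that for every fixed `u`, every `ε > 0` and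
every `D ∈ S` of large norm, prime to `u`, the `2 ^ ω(D)` twists `E_(d u)`, `d ∣ D`, obey the exact law in each class
of the norm: the share of the `d` with `N(d u) ≡ c mod 16` is `1/4 ± ε` for `c = 1, 5, 9, 13`; among those with
`N(d u) ≡ 5` or `13 mod 16` the conjecture is proved with rank and order of vanishing zero, exactly four points and
trivial `Ш[2^∞]`, for the share `κ = 0.4194…` up to `ε`, and all the others have infinitely many points or
`Ш[2] ≠ 0`; the mean of `√(2^rank #Ш[2])` is at most `2 + ε` and the mean of the rank at most `1.53 + 6 ε`.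
-/

set_option autoImplicit false

open Finset Filter NumberField Topology

namespace Pool.Agent.Results.MP_cd906c_nt.GaussianTwistsOverDivisors

open Pool.Agent.Results.MP_1a91b9_nt.PositiveProportionGaussianTwists (twist BSDRank)
open Pool.Agent.TH841.NF.D (Sha)

/-- `D ≡ 1 mod 2 + 2i`. -/
def Primary (D : GaussianInt) : Prop := (⟨2, 2⟩ : GaussianInt) ∣ D - 1

/-- `κ = ∏ (1 - 2^{-(2i+1)}) = 0.4194…` -/
noncomputable def κ : ℝ := ∏' i : ℕ, (1 - (1 / 2 : ℝ) ^ (2 * i + 1))

/-- The limit law `α_b = κ / ((2 - 1) (4 - 1) ⋯ (2 ^ b - 1))`. -/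
noncomputable def α (b : ℕ) : ℝ := κ / ∏ i ∈ Finset.range b, ((2 : ℝ) ^ (i + 1) - 1)

/-- `S` consists of almost all the squarefree `D ≡ 1 mod 2 + 2i`, in the order of the norm. -/
def AlmostAll (S : Set GaussianInt) : Prop :=
  (∀ D ∈ S, Primary D ∧ Squarefree D) ∧
  Tendsto (fun X : ℕ => ({D ∈ S | D.norm ≤ X}.ncard : ℝ) /
    {D : GaussianInt | Primary D ∧ Squarefree D ∧ D.norm ≤ X}.ncard) atTop (𝓝 1)

/-- The divisors `d ≡ 1 mod 2 + 2i` of `D` (one for every ideal divisor). -/
def Divisors (D : GaussianInt) : Set GaussianInt := {d | Primary d ∧ d ∣ D}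

/-- The divisors `d ≡ 1 mod 2 + 2i` of `D` with `N(d u) ≡ c mod 16`. -/
def Class (u D : GaussianInt) (c : ℤ) : Set GaussianInt :=
  {d | Primary d ∧ d ∣ D ∧ (d * u).norm % 16 = c}

section
variable {K : Type} [Field K] [NumberField K]

/-- The rank (`MP E` is the group of the points over `K`). -/
noncomputable def rank (E : WeierstrassCurve K) : ℕ := Module.finrank ℤ (Pool.Agent.Y682.MP E)

/-- The order of the group of the elements of `Ш` killed by two. -/
noncomputable def ShaTwo (E : WeierstrassCurve K) : ℕ := Nat.card {x : Sha E // 2 • x = 0}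

/-- Infinitely many points over `K`, or an element of order two in `Ш`. -/
def Other (E : WeierstrassCurve K) : Prop :=
  Infinite E.toAffine.Point ∨ ∃ x : Sha E, x ≠ 0 ∧ x + x = 0

/-- The `L`-series is entire and does not vanish at `1`, the group of the points over `K` has exactly four elements,
and the 2-primary part of `Ш` is trivial (`BSDRank` of the file `PositiveProportionGaussianTwists`). -/
def Proved [DecidableEq K] (E : WeierstrassCurve K) : Prop :=
  BSDRank E 0 ∧ Nat.card E.toAffine.Point = 4 ∧ ∀ (n : ℕ) (x : Sha E), 2 ^ n • x = 0 → x = 0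

/-- The share of the divisors in the class `c` with the property `P` is `p` up to `ε`. -/
def Share (u D : GaussianInt) (c : ℤ) (P : GaussianInt → Prop) (p ε : ℝ) : Prop :=
  |({d ∈ Class u D c | P d}.ncard : ℝ) - p * (Class u D c).ncard| ≤ ε * (Class u D c).ncard

/-- The law over the divisors of `D`, for the twists by `u`. -/
def Law [DecidableEq K] (e : GaussianInt ≃+* 𝓞 K) (u D : GaussianInt) (ε : ℝ) : Prop :=
  (∀ c : ℤ, (c = 1 ∨ c = 5 ∨ c = 9 ∨ c = 13) →
    |((Class u D c).ncard : ℝ) - 1 / 4 * (Divisors D).ncard| ≤ ε * (Divisors D).ncard) ∧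
  ∀ c : ℤ, (c = 5 ∨ c = 13) →
    Share u D c (fun d => Proved (twist e (d * u))) κ ε ∧
    (∀ d ∈ Class u D c, Proved (twist e (d * u)) ∨ Other (twist e (d * u))) ∧
    (∀ t : ℕ, (∑ b ∈ Finset.range (t + 1), α b - (t + 1) * ε) * (Class u D c).ncard ≤
      ({d ∈ Class u D c |
        2 ^ rank (twist e (d * u)) * ShaTwo (twist e (d * u)) ≤ 4 ^ t}.ncard : ℝ)) ∧
    ∑ᶠ d ∈ Class u D c, Real.sqrt (2 ^ rank (twist e (d * u)) * ShaTwo (twist e (d * u))) ≤
      (2 + ε) * (Class u D c).ncard ∧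
    ∑ᶠ d ∈ Class u D c, (rank (twist e (d * u)) : ℝ) ≤ (1.5294 + 6 * ε) * (Class u D c).ncard

end

open _root_.Q155.GN (Fm mem_Fm norm_nrm cnt Cs Dv mem_Dv mem_Cs)
open Pool.Agent.Y699 (PS)
open H385 (nrm)

lemma kappa : κ = _root_.Q155.KG.al 0 := _root_.Q155.KG.al_zero.symm

lemma alpha (b : ℕ) : α b = _root_.Q155.KG.al b := rfl

lemma ps_iff {D : GaussianInt} : PS D ↔ Primary D ∧ Squarefree D :=
  ⟨fun h => ⟨(Pool.Agent.W164.RC.prim_iff_dvd D).1 h.prm, h.sqf⟩,
    fun h => ⟨(Pool.Agent.W164.RC.prim_iff_dvd D).2 h.1, h.2⟩⟩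

/-- The sets as finite sets. -/
lemma divisors_eq {D : GaussianInt} (hD : PS D) : Divisors D = ↑(Dv D) := by
  ext d
  rw [Finset.mem_coe, mem_Dv hD, Pool.Agent.W164.RC.prim_iff_dvd]
  exact Iff.rfl

lemma class_eq {u D : GaussianInt} (hD : PS D) (a : ZMod 4) :
    Class u D ((5 ^ a.val % 16 : ℕ) : ℤ) = ↑(Cs u a D) := by
  ext d
  rw [Finset.mem_coe, mem_Cs hD, Pool.Agent.W164.RC.prim_iff_dvd]
  unfold Class
  rw [Set.mem_ofPred_eq, norm_nrm (d * u)]
  constructor
  · rintro ⟨h1, h2, h3⟩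
    exact ⟨⟨h1, h2⟩, by exact_mod_cast h3⟩
  · rintro ⟨⟨h1, h2⟩, h3⟩
    exact ⟨h1, h2, by exact_mod_cast h3⟩

open Classical in
lemma sep_eq {s : Set GaussianInt} {t : Finset GaussianInt} (h : s = ↑t) (P : GaussianInt → Prop) :
    {d ∈ s | P d}.ncard = (t.filter P).card := by
  rw [← Set.ncard_coe_finset, h]
  congr 1
  ext d
  rw [Finset.coe_filter]
  rfl

lemma norm_le {D : GaussianInt} {X : ℕ} : D.norm ≤ X ↔ nrm D ≤ X := by
  rw [norm_nrm]
  exact Nat.cast_le

/-- **Main theorem.** -/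
theorem result : (0.4194 < κ ∧ κ < 0.4195) ∧ HasSum α 1 ∧
    ∃ S : Set GaussianInt, AlmostAll S ∧
    ∀ u : GaussianInt, Primary u → Squarefree u → ∀ ε : ℝ, 0 < ε →
    ∃ N : ℕ, ∀ D ∈ S, N ≤ D.norm → IsCoprime D u →
    ∀ (K : Type) [Field K] [NumberField K] [DecidableEq K] (e : GaussianInt ≃+* 𝓞 K),
      Law e u D ε := by
  classical
  refine ⟨by rw [kappa, _root_.Q155.KG.al_zero]; exact ⟨_root_.Q155.KG.c2_gt, _root_.Q155.KG.c2_lt⟩,
    _root_.Q155.NL.hasSum_al, ?_⟩
  obtain ⟨S, h1, h2, h3⟩ := _root_.Q155.GN.one_set _root_.Q155.GN.ing2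
  refine ⟨{D | S D}, ⟨fun D hD => ps_iff.1 (h1 D hD), ?_⟩, ?_⟩
  · refine h2.congr fun X => ?_
    unfold cnt
    congr 2
    · rw [← Set.ncard_coe_finset]
      congr 1
      ext D
      rw [Finset.mem_coe, mem_Fm, Set.mem_ofPred_eq, Set.mem_ofPred_eq, norm_le]
      exact ⟨fun h => ⟨h.2, h.1.1⟩, fun h => ⟨⟨h.2, h1 D h.1⟩, h.1⟩⟩
    · rw [← Set.ncard_coe_finset]
      congr 1
      ext D
      rw [Finset.mem_coe, mem_Fm, Set.mem_ofPred_eq, norm_le, ps_iff]
      exact ⟨fun h => ⟨h.1.2.1, h.1.2.2, h.1.1⟩, fun h => ⟨⟨h.2.2, h.1, h.2.1⟩, trivial⟩⟩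
  · intro u hu1 hu2 ε hε
    have hu : PS u := ps_iff.2 ⟨hu1, hu2⟩
    obtain ⟨N, hN⟩ := h3 u hu ε hε
    refine ⟨N, fun D hDS hDN hc K _ _ _ e => ?_⟩
    have hD : PS D := h1 D hDS
    have hL := hN D (by rw [norm_nrm] at hDN; exact_mod_cast hDN) hDS hc
    have g := _root_.Q155.GN.ing3
    have hW : ∀ d, PS d → _root_.Q155.GN.Cu (twist e d) _ := fun d hd =>
      _root_.Q155.GN.cu_twist e hd
    have hf : ∀ a : ZMod 4, 5 ^ a.val % 16 % 8 = 5 → _ := fun a ha =>
      _root_.Q155.GN.divs g hu hD hc ha (hL a) e (fun d => twist e d) hW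
    have c13 : ((5 ^ (3 : ZMod 4).val % 16 : ℕ) : ℤ) = 13 := by decide
    have c5 : ((5 ^ (1 : ZMod 4).val % 16 : ℕ) : ℤ) = 5 := by decide
    have e13 : Class u D 13 = ↑(Cs u 3 D) := by
      rw [← c13]
      exact class_eq hD 3
    have e5 : Class u D 5 = ↑(Cs u 1 D) := by
      rw [← c5]
      exact class_eq hD 1
    have key : ∀ (c : ℤ) (a : ZMod 4), Class u D c = ↑(Cs u a D) → 5 ^ a.val % 16 % 8 = 5 →
        Share u D c (fun d => Proved (twist e (d * u))) κ ε ∧
        (∀ d ∈ Class u D c, Proved (twist e (d * u)) ∨ Other (twist e (d * u))) ∧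
        (∀ t : ℕ, (∑ b ∈ Finset.range (t + 1), α b - (t + 1) * ε) * (Class u D c).ncard ≤
          ({d ∈ Class u D c |
            2 ^ rank (twist e (d * u)) * ShaTwo (twist e (d * u)) ≤ 4 ^ t}.ncard : ℝ)) ∧
        ∑ᶠ d ∈ Class u D c, Real.sqrt (2 ^ rank (twist e (d * u)) * ShaTwo (twist e (d * u))) ≤
          (2 + ε) * (Class u D c).ncard ∧
        ∑ᶠ d ∈ Class u D c, (rank (twist e (d * u)) : ℝ) ≤
          (1.5294 + 6 * ε) * (Class u D c).ncard := by
      intro c a hca ha
      obtain ⟨k1, k2, k3, k4, k5⟩ := hf a ha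
      have hn : (Class u D c).ncard = (Cs u a D).card := by
        rw [hca, Set.ncard_coe_finset]
      have h8 : ∀ d ∈ Cs u a D, nrm (d * u) % 8 = 5 := by
        intro d hd
        have h1 := ((mem_Cs hD).1 hd).2
        omega
      have hps : ∀ d ∈ Cs u a D, PS (d * u) := fun d hd => _root_.Q155.GN.Cs_ps hu hD hc hd
      refine ⟨?_, fun d hd => ?_, fun t => ?_, ?_, ?_⟩
      · unfold Share
        rw [sep_eq hca, hn, kappa]
        have k1 : ((Cs u a D).filter fun d => Proved (twist e (d * u))) =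
            (Cs u a D).filter fun d => _root_.Q155.GN.bb (Pool.Agent.Y699.PD (d * u)) = 0 :=
          Finset.filter_congr fun d hd => _root_.Q155.GN.twist_tr g (hps d hd) (h8 d hd) e
        rw [k1]
        exact (hL a).law 0
      · rw [hca] at hd
        have hd' := Finset.mem_coe.1 hd
        have k1 : Proved (twist e (d * u)) ↔ _ := _root_.Q155.GN.twist_tr g (hps d hd') (h8 d hd') e
        have k2 : Other (twist e (d * u)) ↔ _ := _root_.Q155.GN.twist_ot g (hps d hd') (h8 d hd') e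
        rw [k1, k2]
        exact Classical.em _
      · rw [sep_eq hca, hn]
        exact k3 t
      · rw [hn, hca, finsum_mem_coe_finset]
        exact k4
      · rw [hn, hca, finsum_mem_coe_finset]
        exact k5
    refine ⟨?_, ?_⟩
    · have hcl : ∀ (c : ℤ) (a : ZMod 4), ((5 ^ a.val % 16 : ℕ) : ℤ) = c →
          |((Class u D c).ncard : ℝ) - 1 / 4 * (Divisors D).ncard| ≤ ε * (Divisors D).ncard := by
        rintro c a rfl
        rw [class_eq hD a, divisors_eq hD, Set.ncard_coe_finset, Set.ncard_coe_finset]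
        have k1 := (hL a).big
        have k2 := (hL a).sml
        rw [abs_le]
        constructor <;> nlinarith
      rintro c (rfl | rfl | rfl | rfl)
      · exact hcl 1 0 (by decide)
      · exact hcl 5 1 (by decide)
      · exact hcl 9 2 (by decide)
      · exact hcl 13 3 (by decide)
    · rintro c (rfl | rfl)
      · exact key 5 1 e5 (by decide)
      · exact key 13 3 e13 (by decide)

end Pool.Agent.Results.MP_cd906c_nt.GaussianTwistsOverDivisors
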