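import Pool.Agent.Q161.ESN.Fin

/-!
# Ranks of ALL quadratic twists over EVERY number field: all exponential moments are bounded

Let `F` be a number field and `E : y² = x³ + a x + b` an elliptic curve over `F` without `F`-rational point of order
two, let `E_D : y² = x³ + a D² x + b D³`, `D ∈ F^*`, be its quadratic twists, and `N` an elementary abelian 2-extension of
`F` (for example `N = F`, or `N = F(√d_1, …, √d_m)`).  We prove that for every `k` there is a constant `C` such that for all
`X ≥ 1`

  `∑ 2^(k rank E_D(N)) ≤ C X`,  `D ∈ F^*/F^*²`, `oddNorm D ≤ X`,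

and more generally the joint moments for finitely many such curves over `F` are bounded.  There are between `X/C` and
`C X` such classes `D`; so the average rank over `N` of the quadratic twists is bounded, and the proportion of the twists
of rank at least `n` over `N` is `O_k(2^(-k n))` for every `k`.

`oddNorm D` is the norm of the product of the prime ideals of `F` at which the valuation of `D` is odd; it depends only on
the class of `D` modulo squares, that is, on the twist.  `Twists X 𝒟`: the elements of the finite set `𝒟` are nonzero, of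
`oddNorm` at most `X` and in different classes modulo squares; `AllTwists X 𝒟`: in addition `𝒟` meets every class of
nonzero elements of `oddNorm` at most `X`.

The proof (projects ESM, ESF, ESN; `Pool/Agent/Q161`) bounds the joint moments of the orders of the 2-Selmer groups: the
2-descent over `F`, a system of quadratic characters of ray classes of `F` and of fields containing `F` attached to the
elements of a finite semisimple Galois module, and high moments of these characters.
Project of helper161 with helpers 14, 24, 26, 38, 63, 65, 68, 79, 92, 96, 121, 123, 124, 129, 147, 149, 150, 151, 153, 166,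
177, 182, 184, 190, 193, 195, 208, 211, 223, 224, 237, 238, 241, 261, 275, 285, 299.
-/

set_option autoImplicit false

namespace Pool.Agent.Results.MP_cd906c_nt.RankMomentsAllTwists

open Finset NumberField Pool.Agent.Q161.ESN

open scoped Classical

/-- the sum of the ranks over the fields `N i` of the twists by `D` of the curves `y² = x³ + a i x + b i` -/
noncomputable def rankSum {F : Type} [Field F] {r : ℕ} (N : Fin r → Type) [∀ i, Field (N i)]
    [∀ i, NumberField (N i)] [∀ i, Algebra F (N i)] (a b : Fin r → F) (D : F) : ℕ :=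
  ∑ i, rank (algebraMap F (N i) (a i)) (algebraMap F (N i) (b i)) (algebraMap F (N i) D)

/-- Let `F` be any number field.  (A) For all `X ≥ 1` there are complete sets of representatives of the quadratic twists up
to `X`, and they have between `X/C` and `C X` elements, `C` depending on `F`.  (B) Let `E_i : y² = x³ + a_i x + b_i`,
`1 ≤ i ≤ r`, be elliptic curves over `F` without `F`-rational points of order two, `N_i` elementary abelian 2-extensions of
`F`, and `R(D)` the sum of the ranks over the `N_i` of their twists by `D`.  For every `k` there is a `C` such that for all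
`X ≥ 1` and all finite sets `𝒟` of representatives of different twists up to `X`: (1) `∑ 2^(k R(D)) ≤ C X`;
(2) `∑ R(D)^k ≤ C X`; (3) for all `n` the number of the `D ∈ 𝒟` with `R(D) ≥ n` is at most `C X / 2^(k n)`;
(4) `k ∑ R(D) ≤ |𝒟| log₂ (C X / |𝒟|)` if `𝒟` is not empty; and if `𝒟` is complete (5) the mean of `2^(k R(D))` and the mean of
`R(D)^k` over `𝒟` are at most `C` and the proportion of the `D` with `R(D) ≥ n` is at most `C / 2^(k n)`. -/
theorem result (F : Type) [Field F] [NumberField F] :
    (∃ C : ℝ, 0 < C ∧ ∀ X : ℝ, 1 ≤ X → (∃ 𝒟 : Finset F, AllTwists X 𝒟) ∧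
      ∀ 𝒟 : Finset F, AllTwists X 𝒟 → X / C ≤ 𝒟.card ∧ (𝒟.card : ℝ) ≤ C * X) ∧
    ∀ (r : ℕ) (N : Fin r → Type) [∀ i, Field (N i)] [∀ i, NumberField (N i)] [∀ i, Algebra F (N i)],
      (∀ i, IsGalois F (N i)) → (∀ i, ∀ σ : N i ≃ₐ[F] N i, σ * σ = 1) →
      ∀ a b : Fin r → F, (∀ i, ∀ x : F, x ^ 3 + a i * x + b i ≠ 0) →
      ∀ k : ℕ, ∃ C : ℝ, 0 < C ∧ ∀ X : ℝ, 1 ≤ X → ∀ 𝒟 : Finset F,
        (Twists X 𝒟 → (∑ D ∈ 𝒟, (2 : ℝ) ^ (k * rankSum N a b D) ≤ C * X) ∧
          (∑ D ∈ 𝒟, (rankSum N a b D : ℝ) ^ k ≤ C * X) ∧
          (∀ n : ℕ, ((𝒟.filter (fun D => n ≤ rankSum N a b D)).card : ℝ) ≤ C * X / 2 ^ (k * n)) ∧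
          (𝒟.Nonempty → k * ∑ D ∈ 𝒟, (rankSum N a b D : ℝ) ≤
            𝒟.card * Real.logb 2 (C * X / 𝒟.card))) ∧
        (AllTwists X 𝒟 → (∑ D ∈ 𝒟, (2 : ℝ) ^ (k * rankSum N a b D) ≤ C * 𝒟.card) ∧
          (∑ D ∈ 𝒟, (rankSum N a b D : ℝ) ^ k ≤ C * 𝒟.card) ∧
          ∀ n : ℕ, ((𝒟.filter (fun D => n ≤ rankSum N a b D)).card : ℝ) ≤
            C * 𝒟.card / 2 ^ (k * n)) := by
  refine ⟨t_family F, fun r N _ _ _ hN h2 a b h k => rankBounded _ k ?_⟩
  obtain ⟨C, hC, hmain⟩ := rankMoments t_goal t_fin (Fin r) F N hN h2 a b h k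
  refine ⟨C, hC, fun X hX 𝒟 h𝒟 => le_trans (le_of_eq (sum_congr rfl fun D _ => ?_)) (hmain X hX 𝒟 h𝒟)⟩
  rw [rankSum, ← prod_pow_eq_pow_sum]
  refine congrArg (· ^ k) (prod_congr rfl fun i _ => ?_)
  unfold rank tw Pool.Agent.Q161.ESG.shF
  rw [map_mul, map_mul, map_pow, map_pow]

end Pool.Agent.Results.MP_cd906c_nt.RankMomentsAllTwists
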