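import Pool.Agent.Q283.FG.All

/-!
# The ranks of the quadratic twists of elliptic curves over multiquadratic extensions of number fields

Let `F` be any number field and let `E : y² = (x - e 0) (x - e 1) (x - e 2)` be an elliptic curve over `F` with rational points
of order two (every such curve has an equation with `e 0 + e 1 + e 2 = 0`), without cyclic subgroup of order `4` over `F` (no
product `(e i - e j) (e i - e l)` is a square in `F`), for which not all three products `-(e i - e j) (e i - e l)` are squares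
in `F` (this is automatic if `F` has a real place or contains `i`). Let `E_D`, with the roots `D e j`, be its quadratic twists.
Let `M = F(√m_1, …, √m_n)` be a multiquadratic extension of `F` of degree `2^n` (`n = 0`: `M = F`), `m_T` the product of the
`m_j`, `j ∈ T`; if `M` contains `i` we assume that none of the products `-(e i - e j) (e i - e l)` is a square in `F`. The rank
of `E_D(M)` is the sum of the ranks of the groups `E_(D m_T)(F)` for all subsets `T` of `{1, …, n}`. For every curve `E` of this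
kind there is a number `r(E)` with `2^rank(E(F)) · #Ш(E/F)[2] = 2^r(E)`.

The theorem is about the ranks of the groups `E_D(M)` for `D` in an ensemble: prescribe `D` up to squares in the completions at
all places above the prime numbers `≤ y` (it is equal to `D₀` there), where `y` is large, and its signs at the real places
(those of `D₀`), and let its order be odd at `k` further primes `q_0, …, q_(k-1)`, of norms `≤ X_0, …, X_(k-1)`, and even at all
other primes. Then the parities of the numbers `r(E_(D m_T))` are those of `r(E_(D₀ m_T))`. For large `k`, `X_0`, then `X_1`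
large in terms of `X_0`, and so on:

* the rank of `E_D(M)` is at most `N` for at least the share `P(∑_T R_T ≤ N) - ε`, where the `R_T` are independent random
  variables, `R_T` with the law `p(e) = (β / 2) 2^e / ((2 - 1) (2² - 1) ⋯ (2^e - 1))`, `β = 0.4194…`, conditioned by the parity
  of `r(E_(D₀ m_T))`; in particular `E_D(M)` is finite for at least the share `β^(2^n) - ε` if all these numbers are even;
* the ranks of `E_D(M)` and `E_D(F)` are equal for at least the share `∏_(T ≠ ∅) P(R_T = 0) - ε`, which is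
  `β^(2^n - 1) - ε` if the numbers `r(E_(D₀ m_T))`, `T ≠ ∅`, are even;
* the average rank of `E_D(M)` is less than `1.21 a + 1.33 b`, where `a` and `b` are the numbers of the sets `T` for which
  `r(E_(D₀ m_T))` is even or odd.

Proof. The exact joint law of the 2-Selmer groups of several twists (`Pool/Agent/Q283/FT`, `Pool/Agent/Q283/FG`,
MP_1a91b9_nt.JointLawAllNumberFields) and a bound of the means of the orders of the Selmer groups.

The parts were proved together with the helpers 7, 13, 31, 38, 53, 64, 65, 68, 79, 91, 94, 96, 121, 124, 129, 130, 149, 150, 151, 153, 154, 162, 164, 176, 181, 182, 184,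
187, 190, 192, 198, 211, 214, 223, 224, 238, 241, 247, 252, 259, 265, 277 and 285.
-/

set_option autoImplicit false

namespace Pool.Agent.Results.MP_cd906c_nt.RanksInMultiquadraticExtensions

open NumberField IsDedekindDomain Filter Topology WeierstrassCurve
open Pool.Agent.TH841.NF.D (Sha)
open Pool.Agent.TH841.SH.D (Pt)
open scoped Classical

/-- The curve `y² = (x - e 0) (x - e 1) (x - e 2)`, for `e 0 + e 1 + e 2 = 0`. -/
def curve {F : Type} [Field F] (e : Fin 3 → F) : WeierstrassCurve F :=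
  ⟨0, 0, 0, e 0 * e 1 + e 0 * e 2 + e 1 * e 2, -(e 0 * e 1 * e 2)⟩

/-- The roots `D e j` of the quadratic twist by `D`. -/
def twist {F : Type} [Field F] (D : F) (e : Fin 3 → F) : Fin 3 → F := fun j => D * e j

/-- The product of the differences of one root with the two others is not a square: the curve has no cyclic subgroup of
order `4` over `F`. -/
def NoCyclicFour {F : Type} [Field F] (e : Fin 3 → F) : Prop :=
  ∀ i j l, i ≠ j → i ≠ l → j ≠ l → ∀ s : F, (e i - e j) * (e i - e l) ≠ s ^ 2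

/-- The negatives of the products of the differences of one root with the two others are squares, for all three roots. This is
not possible if `F` has a real place. -/
def Exceptional {F : Type} [Field F] (e : Fin 3 → F) : Prop :=
  ∀ i j l, i ≠ j → i ≠ l → j ≠ l → ∃ s : F, -((e i - e j) * (e i - e l)) = s ^ 2

section Ensemble

variable {F : Type} [Field F] [NumberField F]

/-- The rank of the group of the points over the extension `M` of `F`. -/
noncomputable def rankOver (M : Type) [Field M] [Algebra F M] (e : Fin 3 → F) : ℕ := Module.finrank ℤ (Pt (curve e) M)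

/-- The elements of `Ш` which are killed by `2`. -/
def ShaTwo (e : Fin 3 → F) : Type := {x : Sha (curve e) // (2 : ℕ) • x = 0}

/-- The sum of the rank and of the dimension of `Ш[2]`. -/
noncomputable def selmerRank (e : Fin 3 → F) : ℕ := rankOver F e + Nat.log 2 (Nat.card (ShaTwo e))

/-- The order of `a` at `v`. -/
noncomputable def order (v : HeightOneSpectrum (𝓞 F)) (a : F) : ℤ := -WithZero.log (v.valuation F a)

/-- `a` is the square of a nonzero element of the completion of `F` at `v`. -/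
def SquareAt (v : HeightOneSpectrum (𝓞 F)) (a : F) : Prop :=
  a ≠ 0 ∧ ∃ s : v.adicCompletion F, (a : v.adicCompletion F) = s ^ 2

/-- `v` lies above a prime number `l ≤ y`. -/
def Small (y : ℕ) (v : HeightOneSpectrum (𝓞 F)) : Prop :=
  ∃ l : ℕ, l.Prime ∧ l ≤ y ∧ (l : 𝓞 F) ∈ v.asIdeal

/-- Among the primes not above prime numbers `≤ y` the order of `D` is odd exactly at the primes `q i`; at the primes above
prime numbers `≤ y` the number `D` is equal to `D₀` up to local squares; and at all real places `D` and `D₀` have the same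
sign. -/
structure Fits (y : ℕ) (D₀ : F) {k : ℕ} (q : Fin k → HeightOneSpectrum (𝓞 F)) (D : F) : Prop where
  ne : D ≠ 0
  unr : ∀ v : HeightOneSpectrum (𝓞 F), ¬ Small y v → (∀ i, q i ≠ v) → Even (order v D)
  ram : ∀ i, Odd (order (q i) D)
  loc : ∀ v : HeightOneSpectrum (𝓞 F), Small y v → SquareAt v (D / D₀)
  real : ∀ φ : F →+* ℝ, 0 < φ (D / D₀)

/-- The ensemble: the tuples of `k` different primes `q i`, not above prime numbers `≤ y`, of norm `≤ X i`, to which a
`D` belongs. -/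
def Ensemble (y : ℕ) (D₀ : F) {k : ℕ} (X : Fin k → ℕ) : Set (Fin k → HeightOneSpectrum (𝓞 F)) :=
  {q | (Function.Injective q ∧ ∀ i, ¬ Small y (q i) ∧ Ideal.absNorm (q i).asIdeal ≤ X i) ∧ ∃ D, Fits y D₀ q D}

end Ensemble

/-- `P X` is true for all large `X 0`, for all `X 1` which are large in terms of `X 0`, …, for all `X (k-1)` which are
large in terms of the others. -/
def Nested : (k : ℕ) → ((Fin k → ℕ) → Prop) → Prop
  | 0, P => P Fin.elim0
  | k + 1, P => Nested k fun X => ∀ᶠ x : ℕ in atTop, P (Fin.snoc (α := fun _ => ℕ) X x)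

/-- The share of the subset `S` of the finite set `T`. -/
noncomputable def share {α : Type} (S T : Set α) : ℝ := (S.ncard : ℝ) / T.ncard

/-- The infinite product of the numbers `1 - 2 ^ (- 2 i - 1)`, `i ≥ 0`. -/
noncomputable def beta : ℝ := ∏' i : ℕ, (1 - (1 / 2 : ℝ) ^ (2 * i + 1))

/-- The probability of `e` in the law `p`. -/
noncomputable def law (e : ℕ) : ℝ :=
  beta / 2 * (2 ^ e / ∏ i ∈ Finset.range e, ((2 : ℝ) ^ (i + 1) - 1))

/-- The probability of `e` in the law `p` conditioned by the parity `c`. -/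
noncomputable def parityLaw (c : ZMod 2) (e : ℕ) : ℝ := if (e : ZMod 2) = c then 2 * law e else 0

section Proof

/-- The differences of the roots are equal modulo squares for some bijection of the roots: the modules of the points of order
dividing `4` are isomorphic. -/
def Matched {F : Type} [Field F] (e e' : Fin 3 → F) : Prop :=
  ∃ σ : Equiv.Perm (Fin 3), ∀ i j, i ≠ j → ∃ s : F, (e i - e j) * (e' (σ i) - e' (σ j)) = s ^ 2

theorem nested_iff : ∀ (k : ℕ) (P : (Fin k → ℕ) → Prop), Nested k P ↔ Q283.LQ.Nest k P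
  | 0, _ => Iff.rfl
  | k + 1, _ => nested_iff k _

theorem law_eq : law = Pool.Agent.Q269.SL.law2 := by
  funext e
  rw [Pool.Agent.Q269.SL.law2_eq]
  rfl

theorem parity_eq (c : ZMod 2) (e : ℕ) : parityLaw c e = Q44.JQ.lawc c e := by
  unfold parityLaw Q44.JQ.lawc
  rw [law_eq]

variable {F : Type} [Field F]

theorem noFour {e : Fin 3 → F} (h : NoCyclicFour e) : Q283.FG.NoFour e := by
  have h01 := h 2 0 1 (by decide) (by decide) (by decide)
  have h02 := h 1 0 2 (by decide) (by decide) (by decide)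
  have h12 := h 0 1 2 (by decide) (by decide) (by decide)
  refine ⟨?_, ?_, ?_⟩
  · rintro ⟨s, hs⟩
    refine h12 s (Eq.trans ?_ hs)
    show _ = (e 0 - e 2) * (e 0 - e 1)
    ring
  · rintro ⟨s, hs⟩
    refine h02 s (Eq.trans ?_ hs)
    show _ = -((e 1 - e 2) * (e 0 - e 1))
    ring
  · rintro ⟨s, hs⟩
    refine h01 s (Eq.trans ?_ hs)
    show _ = (e 1 - e 2) * (e 0 - e 2)
    ring

theorem exceptional {e : Fin 3 → F} (h : Q283.FG.Exc e) : Exceptional e := by
  obtain ⟨⟨s, hs⟩, ⟨t, ht⟩, ⟨u, hu⟩⟩ := h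
  have hs' : -((e 0 - e 2) * (e 0 - e 1)) = s ^ 2 := hs
  have ht' : (e 1 - e 2) * (e 0 - e 1) = t ^ 2 := ht
  have hu' : -((e 1 - e 2) * (e 0 - e 2)) = u ^ 2 := hu
  intro i j l hij hil hjl
  have h3 : ∀ i j l : Fin 3, i ≠ j → i ≠ l → j ≠ l → (i = 0 ∧ (j = 1 ∧ l = 2 ∨ j = 2 ∧ l = 1)) ∨
      (i = 1 ∧ (j = 0 ∧ l = 2 ∨ j = 2 ∧ l = 0)) ∨ (i = 2 ∧ (j = 0 ∧ l = 1 ∨ j = 1 ∧ l = 0)) := by decide
  rcases h3 i j l hij hil hjl with ⟨rfl, ⟨rfl, rfl⟩ | ⟨rfl, rfl⟩⟩ | ⟨rfl, ⟨rfl, rfl⟩ | ⟨rfl, rfl⟩⟩ |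
    ⟨rfl, ⟨rfl, rfl⟩ | ⟨rfl, rfl⟩⟩
  · exact ⟨s, by linear_combination hs'⟩
  · exact ⟨s, by linear_combination hs'⟩
  · exact ⟨t, by linear_combination ht'⟩
  · exact ⟨t, by linear_combination ht'⟩
  · exact ⟨u, by linear_combination hu'⟩
  · exact ⟨u, by linear_combination hu'⟩

theorem not_exceptional (φ : F →+* ℝ) {e : Fin 3 → F} (he : Function.Injective e) : ¬ Exceptional e := by
  intro h
  have h2 : ∀ i j l, i ≠ j → i ≠ l → j ≠ l → (φ (e i) - φ (e j)) * (φ (e i) - φ (e l)) < 0 := by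
    intro i j l hij hil hjl
    obtain ⟨s, hs⟩ := h i j l hij hil hjl
    have h3 : (φ (e i) - φ (e j)) * (φ (e i) - φ (e l)) = -(φ s) ^ 2 := by
      rw [← map_pow, ← hs, map_neg, map_mul, map_sub, map_sub]
      ring
    have h4 : (φ (e i) - φ (e j)) * (φ (e i) - φ (e l)) ≠ 0 :=
      mul_ne_zero (sub_ne_zero.2 fun hc => hij (he (φ.injective hc))) (sub_ne_zero.2 fun hc => hil (he (φ.injective hc)))
    rcases lt_or_eq_of_le (show (φ (e i) - φ (e j)) * (φ (e i) - φ (e l)) ≤ 0 by rw [h3]; nlinarith [sq_nonneg (φ s)]) with h5 | h5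
    · exact h5
    · exact absurd h5 h4
  have h01 := h2 2 0 1 (by decide) (by decide) (by decide)
  have h02 := h2 1 0 2 (by decide) (by decide) (by decide)
  have h12 := h2 0 1 2 (by decide) (by decide) (by decide)
  nlinarith [sq_nonneg (φ (e 0) - φ (e 1)), sq_nonneg (φ (e 0) - φ (e 2)), sq_nonneg (φ (e 1) - φ (e 2))]

theorem matched_twists {e : Fin 3 → F} (he : Function.Injective e) {m m' : F} : Matched (twist m e) (twist m' e) ↔
    (∃ x : F, m * m' = x ^ 2) ∨ (∃ x : F, -(m * m') = x ^ 2) ∧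
      ∃ i j l, i ≠ j ∧ i ≠ l ∧ j ≠ l ∧ ∃ s : F, -((e i - e j) * (e i - e l)) = s ^ 2 := by
  constructor
  · rintro ⟨σ, hσ⟩
    have key : ∀ a b : Fin 3, a ≠ b → ∃ s : F, m * m' * ((e a - e b) * (e (σ a) - e (σ b))) = s ^ 2 := by
      intro a b hab
      obtain ⟨s, hs⟩ := hσ a b hab
      refine ⟨s, ?_⟩
      rw [← hs]
      show _ = (m * e a - m * e b) * (m' * e (σ a) - m' * e (σ b))
      ring
    by_cases h0 : m * m' = 0
    · exact Or.inl ⟨0, by rw [h0]; ring⟩
    by_cases hfix : ∃ a b c : Fin 3, a ≠ b ∧ a ≠ c ∧ b ≠ c ∧ σ a = b ∧ σ b = a ∧ σ c = c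
    · obtain ⟨a, b, c, hab, hac, hbc, h1, h2, h3⟩ := hfix
      obtain ⟨s, hs⟩ := key a b hab
      obtain ⟨t, ht⟩ := key a c hac
      rw [h1, h2] at hs
      rw [h1, h3] at ht
      have hd : e a - e b ≠ 0 := sub_ne_zero.2 fun hc => hab (he hc)
      have hneg : -(m * m') = (s / (e a - e b)) ^ 2 := by
        rw [div_pow, eq_div_iff (pow_ne_zero 2 hd), ← hs]
        ring
      refine Or.inr ⟨⟨_, hneg⟩, c, a, b, hac.symm, hbc.symm, hab, t / (s / (e a - e b)), ?_⟩
      have hs0 : s / (e a - e b) ≠ 0 := by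
        intro hc
        rw [hc] at hneg
        exact h0 (by linear_combination -hneg)
      rw [div_pow, eq_div_iff (pow_ne_zero 2 hs0), ← hneg, ← ht]
      ring
    · left
      obtain ⟨s, hs⟩ := key 0 1 (by decide)
      obtain ⟨t, ht⟩ := key 0 2 (by decide)
      obtain ⟨u, hu⟩ := key 1 2 (by decide)
      have hd : ∀ a b : Fin 3, a ≠ b → e a - e b ≠ 0 := fun a b hab => sub_ne_zero.2 fun hc => hab (he hc)
      have hprod : ∀ a b c : Fin 3, σ 0 = a → σ 1 = b → σ 2 = c → (m * m') ^ 3 * ((e 0 - e 1) * (e 0 - e 2) * (e 1 - e 2)) *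
          ((e a - e b) * (e a - e c) * (e b - e c)) = (s * t * u) ^ 2 := by
        rintro a b c rfl rfl rfl
        rw [mul_pow (s * t) u, mul_pow s t, ← hs, ← ht, ← hu]
        ring
      have hd0 : (e 0 - e 1) * (e 0 - e 2) * (e 1 - e 2) ≠ 0 :=
        mul_ne_zero (mul_ne_zero (hd _ _ (by decide)) (hd _ _ (by decide))) (hd _ _ (by decide))
      have hfin : (m * m') ^ 3 * ((e 0 - e 1) * (e 0 - e 2) * (e 1 - e 2)) ^ 2 = (s * t * u) ^ 2 → ∃ x : F, m * m' = x ^ 2 := by
        intro h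
        refine ⟨s * t * u / (m * m' * ((e 0 - e 1) * (e 0 - e 2) * (e 1 - e 2))), ?_⟩
        rw [div_pow, eq_div_iff (pow_ne_zero 2 (mul_ne_zero h0 hd0)), ← h]
        ring
      have hperm : (σ 0 = 0 ∧ σ 1 = 1 ∧ σ 2 = 2) ∨ (σ 0 = 1 ∧ σ 1 = 2 ∧ σ 2 = 0) ∨ (σ 0 = 2 ∧ σ 1 = 0 ∧ σ 2 = 1) := by
        clear hs ht hu key hσ hprod hfin
        revert hfix
        revert σ
        decide
      rcases hperm with ⟨h1, h2, h3⟩ | ⟨h1, h2, h3⟩ | ⟨h1, h2, h3⟩
      · exact hfin (by rw [← hprod _ _ _ h1 h2 h3]; ring)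
      · exact hfin (by rw [← hprod _ _ _ h1 h2 h3]; ring)
      · exact hfin (by rw [← hprod _ _ _ h1 h2 h3]; ring)
  · rintro (⟨x, hx⟩ | ⟨⟨x, hx⟩, c, a, b, hca, hcb, hab, s, hs⟩)
    · refine ⟨Equiv.refl _, fun i j _ => ⟨x * (e i - e j), ?_⟩⟩
      show (m * e i - m * e j) * (m' * e i - m' * e j) = _
      rw [mul_pow, ← hx]
      ring
    · have h1 : ∀ i j : Fin 3, (i = a ∧ j = b ∨ i = b ∧ j = a) → ∃ s : F, m * m' * ((e i - e j) * (e (Equiv.swap a b i) - e (Equiv.swap a b j))) = s ^ 2 := by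
        rintro i j (⟨rfl, rfl⟩ | ⟨rfl, rfl⟩)
        · refine ⟨x * (e i - e j), ?_⟩
          rw [Equiv.swap_apply_left, Equiv.swap_apply_right, mul_pow, ← hx]
          ring
        · refine ⟨x * (e i - e j), ?_⟩
          rw [Equiv.swap_apply_left, Equiv.swap_apply_right, mul_pow, ← hx]
          ring
      have hc : Equiv.swap a b c = c := Equiv.swap_apply_of_ne_of_ne hca hcb
      have h2 : ∀ i j : Fin 3, (i = a ∨ i = b) ∧ j = c ∨ i = c ∧ (j = a ∨ j = b) → ∃ s : F, m * m' * ((e i - e j) * (e (Equiv.swap a b i) - e (Equiv.swap a b j))) = s ^ 2 := by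
        rintro i j (⟨rfl | rfl, rfl⟩ | ⟨rfl, rfl | rfl⟩)
        · refine ⟨x * s, ?_⟩
          rw [hc, Equiv.swap_apply_left, mul_pow, ← hx, ← hs]
          ring
        · refine ⟨x * s, ?_⟩
          rw [hc, Equiv.swap_apply_right, mul_pow, ← hx, ← hs]
          ring
        · refine ⟨x * s, ?_⟩
          rw [hc, Equiv.swap_apply_left, mul_pow, ← hx, ← hs]
          ring
        · refine ⟨x * s, ?_⟩
          rw [hc, Equiv.swap_apply_right, mul_pow, ← hx, ← hs]
          ring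
      have h3 : ∀ i j : Fin 3, i ≠ j → (i = a ∧ j = b ∨ i = b ∧ j = a) ∨ ((i = a ∨ i = b) ∧ j = c ∨ i = c ∧ (j = a ∨ j = b)) := by
        revert hca hcb hab
        clear * -
        revert a b c
        decide
      refine ⟨Equiv.swap a b, fun i j hij => ?_⟩
      obtain ⟨s', hs'⟩ := (h3 i j hij).elim (h1 i j) (h2 i j)
      refine ⟨s', ?_⟩
      rw [← hs']
      show (m * e i - m * e j) * (m' * e (Equiv.swap a b i) - m' * e (Equiv.swap a b j)) = _
      ring

variable [NumberField F]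

theorem odd_iff (v : HeightOneSpectrum (𝓞 F)) (D : F) : Odd (order v D) ↔ Q7.LK.vl 2 v D = 1 := by
  unfold order Q7.LK.vl
  rw [← Int.cast_neg]
  constructor
  · rintro ⟨n, hn⟩
    rw [hn]
    push_cast
    have h2 : (2 : ZMod 2) = 0 := rfl
    rw [h2, zero_mul, zero_add]
  · intro h
    by_contra hc
    rw [Int.not_odd_iff_even] at hc
    obtain ⟨n, hn⟩ := hc
    rw [hn, Int.cast_add, CharTwo.add_self_eq_zero] at h
    exact zero_ne_one h

theorem even_iff (v : HeightOneSpectrum (𝓞 F)) (D : F) : Even (order v D) ↔ Q7.LK.vl 2 v D = 0 := by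
  rw [← Int.not_odd_iff_even, odd_iff]
  generalize Q7.LK.vl 2 v D = z
  revert z
  decide

theorem loc_iff (v : HeightOneSpectrum (𝓞 F)) (a : F) : SquareAt v a ↔ Q7.LK.Lpw 2 v a := by
  have : Fact (Nat.Prime 2) := ⟨Nat.prime_two⟩
  exact (Q7.LK.t_CPL 2 F v a).symm

theorem fits_iff {y : ℕ} {D₀ : F} {k : ℕ} {q : Fin k → HeightOneSpectrum (𝓞 F)} (hq : Function.Injective q)
    (hs : ∀ i, ¬ Small y (q i)) {D : F} : Fits y D₀ q D ↔ Q283.FG.FR y D₀ q D := by
  have hsum : ∀ v : HeightOneSpectrum (𝓞 F), (∀ i, q i ≠ v) → (∑ i, if q i = v then (1 : ZMod 2) else 0) = 0 :=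
    fun v hv => Finset.sum_eq_zero fun i _ => if_neg (hv i)
  have hsum1 : ∀ j, (∑ i, if q i = q j then (1 : ZMod 2) else 0) = 1 := by
    intro j
    rw [Finset.sum_eq_single j (fun i _ hij => if_neg fun h => hij (hq h)) (fun h => absurd (Finset.mem_univ _) h),
      if_pos rfl]
  constructor
  · intro h
    refine ⟨⟨h.ne, fun v hv => ?_, fun v hv => (loc_iff v _).1 (h.loc v hv)⟩, h.real⟩
    by_cases hv' : ∀ i, q i ≠ v
    · rw [(even_iff v D).1 (h.unr v hv hv')]
      exact (hsum v hv').symm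
    · push Not at hv'
      obtain ⟨j, rfl⟩ := hv'
      rw [(odd_iff _ D).1 (h.ram j)]
      exact (hsum1 j).symm
  · rintro ⟨h, hreal⟩
    refine ⟨h.ne, fun v hv hv' => ?_, fun j => ?_, fun v hv => (loc_iff v _).2 (h.loc v hv), hreal⟩
    · rw [even_iff, h.ram v hv]
      exact hsum v hv'
    · rw [odd_iff, h.ram (q j) (hs j)]
      exact hsum1 j

theorem ens_eq (y : ℕ) (D₀ : F) {k : ℕ} (X : Fin k → ℕ) : Ensemble y D₀ X = Q283.FG.Ens y D₀ X := by
  ext q
  constructor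
  · rintro ⟨hq, D, hD⟩
    exact ⟨hq, D, (fits_iff hq.1 fun i => (hq.2 i).1).1 hD⟩
  · rintro ⟨hq, D, hD⟩
    exact ⟨hq, D, (fits_iff hq.1 fun i => (hq.2 i).1).2 hD⟩

theorem marg0 {κ : Type} [Fintype κ] (c : κ → ZMod 2) (S : Finset κ) :
    HasSum (fun g : κ → ℕ => if ∀ l ∈ S, g l = 0 then ∏ l', Q44.JQ.lawc (c l') (g l') else 0)
      (∏ l ∈ S, Q44.JQ.lawc (c l) 0) := by
  have h1 := Q44.JQ.M.hasSum_prod (J := κ)
    (f := fun l' m => if l' ∈ S then (if m = 0 then 1 else 0) else Q44.JQ.lawc (c l') m)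
    (by
      intro l' m
      split_ifs
      · exact zero_le_one
      · exact le_rfl
      · exact Q44.JQ.M.lawc_nonneg _ _)
    (by
      intro l'
      by_cases h : l' ∈ S
      · simp only [h, if_true]
        exact hasSum_ite_eq 0 1
      · simp only [h, if_false]
        exact Q44.JQ.M.hasSum_lawc _)
  have h2 := h1.mul_right (∏ l ∈ S, Q44.JQ.lawc (c l) 0)
  rw [one_mul] at h2
  have h4 : (fun g : κ → ℕ => if ∀ l ∈ S, g l = 0 then ∏ l', Q44.JQ.lawc (c l') (g l') else 0) = fun g : κ → ℕ =>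
      (∏ l', if l' ∈ S then (if g l' = 0 then (1 : ℝ) else 0) else Q44.JQ.lawc (c l') (g l')) *
        ∏ l ∈ S, Q44.JQ.lawc (c l) 0 := by
    funext g
    by_cases h : ∀ l ∈ S, g l = 0
    · rw [if_pos h]
      have h5 : ∏ l ∈ S, Q44.JQ.lawc (c l) 0 = ∏ l', if l' ∈ S then Q44.JQ.lawc (c l') 0 else 1 := by
        rw [Finset.prod_ite_mem, Finset.univ_inter]
      rw [h5, ← Finset.prod_mul_distrib]
      refine Finset.prod_congr rfl fun l _ => ?_
      by_cases hl : l ∈ S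
      · rw [if_pos hl, if_pos hl, if_pos (h l hl), h l hl, one_mul]
      · rw [if_neg hl, if_neg hl, mul_one]
    · rw [if_neg h]
      push Not at h
      obtain ⟨l, hl, hl0⟩ := h
      rw [Finset.prod_eq_zero (Finset.mem_univ l) (by rw [if_pos hl, if_neg hl0]), zero_mul]
  rw [h4]
  exact h2

omit [NumberField F] in
theorem twist_twist (a b : F) (e : Fin 3 → F) : twist a (twist b e) = twist (a * b) e := by
  funext j
  show a * (b * e j) = a * b * e j
  ring

omit [NumberField F] in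
theorem noFour_twist {e : Fin 3 → F} (h : NoCyclicFour e) {m : F} (hm : m ≠ 0) : NoCyclicFour (twist m e) := by
  intro i j l hij hil hjl s hs
  refine h i j l hij hil hjl (s / m) ?_
  have h1 : (m * e i - m * e j) * (m * e i - m * e l) = s ^ 2 := hs
  rw [div_pow, eq_div_iff (pow_ne_zero 2 hm), ← h1]
  ring

omit [NumberField F] in
theorem exceptional_twist {e : Fin 3 → F} {m : F} (hm : m ≠ 0) (h : Exceptional (twist m e)) : Exceptional e := by
  intro i j l hij hil hjl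
  obtain ⟨s, hs⟩ := h i j l hij hil hjl
  refine ⟨s / m, ?_⟩
  have h1 : -((m * e i - m * e j) * (m * e i - m * e l)) = s ^ 2 := hs
  rw [div_pow, eq_div_iff (pow_ne_zero 2 hm), ← h1]
  ring

omit [NumberField F] in
theorem prod_mul {n : ℕ} {m : Fin n → F} (hm : ∀ j, m j ≠ 0)
    (hind : ∀ T : Finset (Fin n), T.Nonempty → ¬ ∃ s : F, ∏ j ∈ T, m j = s ^ 2) {T T' : Finset (Fin n)} (hT : T ≠ T') :
    ¬ ∃ x : F, (∏ j ∈ T, m j) * ∏ j ∈ T', m j = x ^ 2 := by
  rintro ⟨x, hx⟩
  have h0 : ∏ j ∈ T ∩ T', m j ≠ 0 := Finset.prod_ne_zero_iff.2 fun j _ => hm j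
  have h1 : (∏ j ∈ T, m j) = (∏ j ∈ T \ T', m j) * ∏ j ∈ T ∩ T', m j := by
    rw [← Finset.prod_union (Finset.disjoint_sdiff_inter T T'), Finset.sdiff_union_inter]
  have h2 : (∏ j ∈ T', m j) = (∏ j ∈ T' \ T, m j) * ∏ j ∈ T ∩ T', m j := by
    rw [Finset.inter_comm, ← Finset.prod_union (Finset.disjoint_sdiff_inter T' T), Finset.sdiff_union_inter]
  have h3 : ∏ j ∈ (T \ T') ∪ (T' \ T), m j = (∏ j ∈ T \ T', m j) * ∏ j ∈ T' \ T, m j := by
    rw [Finset.prod_union]
    exact disjoint_sdiff_sdiff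
  refine hind ((T \ T') ∪ (T' \ T)) ?_ ⟨x / ∏ j ∈ T ∩ T', m j, ?_⟩
  · by_contra hc
    rw [Finset.not_nonempty_iff_eq_empty, Finset.union_eq_empty, Finset.sdiff_eq_empty_iff_subset,
      Finset.sdiff_eq_empty_iff_subset] at hc
    exact hT (Finset.Subset.antisymm hc.1 hc.2)
  · rw [div_pow, eq_div_iff (pow_ne_zero 2 h0), h3, ← hx, h1, h2]
    ring

end Proof

/-- **Main result.** -/
theorem result (F : Type) [Field F] [NumberField F] (e : Fin 3 → F)
    (he : Function.Injective e) (hs : e 0 + e 1 + e 2 = 0) (h4 : NoCyclicFour e) (hX : ¬ Exceptional e)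
    (M : Type) [Field M] [NumberField M] [Algebra F M] (n : ℕ) (m : Fin n → F) (x : Fin n → M)
    (hx : ∀ j, x j ^ 2 = algebraMap F M (m j)) (hgen : IntermediateField.adjoin F (Set.range x) = ⊤)
    (hind : ∀ T : Finset (Fin n), T.Nonempty → ¬ ∃ s : F, ∏ j ∈ T, m j = s ^ 2)
    (hM : (∃ i : M, i ^ 2 = -1) → ∀ i j l, i ≠ j → i ≠ l → j ≠ l → ∀ s : F, -((e i - e j) * (e i - e l)) ≠ s ^ 2) :
    (∀ D : F, D ≠ 0 → rankOver M (twist D e) = ∑ T : Finset (Fin n), rankOver F (twist (D * ∏ j ∈ T, m j) e) ∧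
      ∀ T : Finset (Fin n), Finite (ShaTwo (twist (D * ∏ j ∈ T, m j) e)) ∧
        2 ^ rankOver F (twist (D * ∏ j ∈ T, m j) e) * Nat.card (ShaTwo (twist (D * ∏ j ∈ T, m j) e)) =
          2 ^ selmerRank (twist (D * ∏ j ∈ T, m j) e)) ∧
    (∀ e' : Fin 3 → F, Function.Injective e' → (F →+* ℝ) → ¬ Exceptional e') ∧
    HasSum law 1 ∧ (∀ c, HasSum (parityLaw c) 1) ∧ (0.4194 < parityLaw 0 0 ∧ parityLaw 0 0 < 0.4195) ∧
    ∃ y₀ : ℕ, ∀ y, y₀ ≤ y → ∀ D₀ : F, D₀ ≠ 0 →
      (∀ D : F, D ≠ 0 → (∀ v : HeightOneSpectrum (𝓞 F), Small y v → SquareAt v (D / D₀)) →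
        (∀ φ : F →+* ℝ, 0 < φ (D / D₀)) → ∀ T : Finset (Fin n),
        (selmerRank (twist (D * ∏ j ∈ T, m j) e) : ZMod 2) = selmerRank (twist (D₀ * ∏ j ∈ T, m j) e)) ∧
      ∀ ε : ℝ, 0 < ε → ∃ k₀ : ℕ, ∀ k, k₀ ≤ k → Nested k fun X =>
        (Ensemble y D₀ X).Finite ∧ (Ensemble y D₀ X).Nonempty ∧
        (∀ N : ℕ, (∑' g : Finset (Fin n) → ℕ, if ∑ T, g T ≤ N then
            ∏ T, parityLaw (selmerRank (twist (D₀ * ∏ j ∈ T, m j) e)) (g T) else 0) - ε ≤
          share {q ∈ Ensemble y D₀ X | ∀ D, Fits y D₀ q D → rankOver M (twist D e) ≤ N} (Ensemble y D₀ X)) ∧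
        (∏ T ∈ Finset.univ.erase (∅ : Finset (Fin n)),
            parityLaw (selmerRank (twist (D₀ * ∏ j ∈ T, m j) e)) 0) - ε ≤
          share {q ∈ Ensemble y D₀ X | ∀ D, Fits y D₀ q D → rankOver M (twist D e) = rankOver F (twist D e)}
            (Ensemble y D₀ X) ∧
        ∀ (𝒯 : Finset (Fin k → HeightOneSpectrum (𝓞 F))) (D : (Fin k → HeightOneSpectrum (𝓞 F)) → F),
          (∀ q, q ∈ 𝒯 ↔ q ∈ Ensemble y D₀ X) → (∀ q ∈ 𝒯, Fits y D₀ q (D q)) →
          (∑ q ∈ 𝒯, (rankOver M (twist (D q) e) : ℝ)) / 𝒯.card <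
            ∑ T : Finset (Fin n), if Even (selmerRank (twist (D₀ * ∏ j ∈ T, m j) e)) then 1.21 else 1.33 := by
  have hnmc := Q283.FT.t_NMC
  have hRKM := Q283.FT.t_RKM
  obtain ⟨hA, hB⟩ := Q283.FG.t_GMAIN F
  have hm0 : ∀ j, m j ≠ 0 := by
    intro j h
    refine hind {j} ⟨j, Finset.mem_singleton_self j⟩ ⟨0, ?_⟩
    rw [Finset.prod_singleton, h]
    ring
  have hmT : ∀ T : Finset (Fin n), ∏ j ∈ T, m j ≠ 0 := fun T => Finset.prod_ne_zero_iff.2 fun j _ => hm0 j
  have hrt : ∀ {D : F}, D ≠ 0 → Q283.FT.Rt (twist D e) := fun hD => Q283.FT.twi_rt hD ⟨he, hs⟩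
  -- the rank over `M`
  have hrk : ∀ D : F, D ≠ 0 →
      rankOver M (twist D e) = ∑ T : Finset (Fin n), rankOver F (twist (D * ∏ j ∈ T, m j) e) := by
    intro D hD
    have h := hRKM F M n m x hx hgen hind (twist D e) (hrt hD)
    refine h.trans (Finset.sum_congr rfl fun T _ => ?_)
    have h2 : Q283.FT.twi (∏ j ∈ T, m j) (twist D e) = twist (D * ∏ j ∈ T, m j) e := by
      rw [mul_comm]
      exact twist_twist _ _ _
    rw [h2]
    rfl
  have hle : ∀ D : F, D ≠ 0 → ∀ T : Finset (Fin n), rankOver F (twist (D * ∏ j ∈ T, m j) e) ≤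
      selmerRank (twist (D * ∏ j ∈ T, m j) e) := fun D hD T => Nat.le_add_right _ _
  refine ⟨fun D hD => ⟨hrk D hD, fun T => ?_⟩, fun e' he' φ => not_exceptional φ he', ?_, fun c => ?_, ?_, ?_⟩
  · obtain ⟨h1, -, h3, -⟩ := hA (twist (D * ∏ j ∈ T, m j) e) (hrt (mul_ne_zero hD (hmT T)))
    exact ⟨h1, h3⟩
  · rw [law_eq]
    exact Pool.Agent.Q269.SL.hasSum_law
  · rw [show parityLaw c = fun e => Q44.JQ.lawc c e from funext (parity_eq c)]
    exact Q44.JQ.M.hasSum_lawc c
  · rw [parity_eq]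
    exact hnmc.1
  have hnm : ∀ T T' : Finset (Fin n), T ≠ T' → ¬ Matched (twist (∏ j ∈ T, m j) e) (twist (∏ j ∈ T', m j) e) := by
    intro T T' hTT h
    rcases (matched_twists he).1 h with h1 | ⟨⟨s, h1⟩, a, b, c, hab, hac, hbc, z, hz⟩
    · exact prod_mul hm0 hind hTT h1
    · refine hM ⟨algebraMap F M s / ((∏ j ∈ T, x j) * ∏ j ∈ T', x j), ?_⟩ a b c hab hac hbc z hz
      have h2 : ∀ S : Finset (Fin n), (∏ j ∈ S, x j) ^ 2 = algebraMap F M (∏ j ∈ S, m j) := by
        intro S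
        rw [← Finset.prod_pow, map_prod]
        exact Finset.prod_congr rfl fun j _ => hx j
      have h3 : ∀ S : Finset (Fin n), (∏ j ∈ S, x j) ≠ 0 := by
        intro S h0
        have h5 := h2 S
        rw [h0, zero_pow (by norm_num)] at h5
        exact hmT S ((map_eq_zero (algebraMap F M)).1 h5.symm)
      rw [div_pow, div_eq_iff (pow_ne_zero 2 (mul_ne_zero (h3 T) (h3 T'))), mul_pow, h2, h2, ← map_pow, ← h1, map_neg,
        map_mul]
      ring
  obtain ⟨y0, hy0⟩ := hB (Finset (Fin n)) (fun T => twist (∏ j ∈ T, m j) e) (fun T => hrt (hmT T))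
    (fun T => noFour (noFour_twist h4 (hmT T))) (fun T h => hX (exceptional_twist (hmT T) (exceptional h))) hnm
  have htw : ∀ (D : F) (T : Finset (Fin n)), Q283.FT.twi D (twist (∏ j ∈ T, m j) e) = twist (D * ∏ j ∈ T, m j) e :=
    fun D T => twist_twist _ _ _
  refine ⟨y0, fun y hy D₀ hD₀ => ?_⟩
  obtain ⟨hpar, C, hC⟩ := hy0 y hy D₀ hD₀
  refine ⟨fun D hD hDD hDR T => ?_, fun ε hε => ?_⟩
  · have h := hpar D hD (fun v hv => (loc_iff v _).1 (hDD v hv)) hDR T
    unfold Q283.FT.par at h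
    rw [htw, htw] at h
    exact h
  -- the means
  have hm1 : ∑' j : ℕ, (j : ℝ) * Q44.JQ.lawc 0 j < 1.21 := hnmc.2.2.1
  have hm2 : ∑' j : ℕ, (j : ℝ) * Q44.JQ.lawc 1 j < 1.33 := hnmc.2.2.2
  set η : ℝ := min ε (min ((1.21 - ∑' j : ℕ, (j : ℝ) * Q44.JQ.lawc 0 j) / 2)
    ((1.33 - ∑' j : ℕ, (j : ℝ) * Q44.JQ.lawc 1 j) / 2)) with hη
  have hη0 : 0 < η := lt_min hε (lt_min (by linarith) (by linarith))
  have hηε : η ≤ ε := min_le_left _ _
  have hη1 : η ≤ (1.21 - ∑' j : ℕ, (j : ℝ) * Q44.JQ.lawc 0 j) / 2 := (min_le_right _ _).trans (min_le_left _ _)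
  have hη2 : η ≤ (1.33 - ∑' j : ℕ, (j : ℝ) * Q44.JQ.lawc 1 j) / 2 := (min_le_right _ _).trans (min_le_right _ _)
  obtain ⟨k0, hk0⟩ := hC η hη0
  refine ⟨k0, fun k hk => (nested_iff k _).mpr (Q7.LK.nest_mono k _ _ (fun X hX => ?_) (hk0 k hk))⟩
  obtain ⟨hfin, hpos, huniq, hlaw, hmean⟩ := hX
  rw [ens_eq]
  have hne : (Q283.FG.Ens y D₀ X).Nonempty := by
    rw [← Set.ncard_pos hfin]
    exact_mod_cast hpos
  have hshare : ∀ (𝒜 : Set (Finset (Fin n) → ℕ)) (P : F → Prop),
      (∀ D : F, D ≠ 0 → (fun T => selmerRank (twist (D * ∏ j ∈ T, m j) e)) ∈ 𝒜 → P D) →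
      (∑' g : Finset (Fin n) → ℕ, if g ∈ 𝒜 then
        ∏ T, parityLaw (selmerRank (twist (D₀ * ∏ j ∈ T, m j) e)) (g T) else 0) - ε ≤
      share {q ∈ Q283.FG.Ens y D₀ X | ∀ D, Fits y D₀ q D → P D} (Q283.FG.Ens y D₀ X) := by
    intro 𝒜 P hP
    have h1 := (abs_le.1 (hlaw 𝒜)).1
    have h2 : {q ∈ Q283.FG.Ens y D₀ X | ∀ D, Q283.FG.FR y D₀ q D →
        (fun l => Q283.FT.rk2 (Q283.FT.twi D (twist (∏ j ∈ l, m j) e))) ∈ 𝒜} ⊆
        {q ∈ Q283.FG.Ens y D₀ X | ∀ D, Fits y D₀ q D → P D} := by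
      rintro q ⟨hq, h⟩
      refine ⟨hq, fun D hD => hP D hD.ne ?_⟩
      have h3 := h D ((fits_iff hq.1.1 fun i => (hq.1.2 i).1).1 hD)
      simp only [htw] at h3
      exact h3
    have h3 : (({q ∈ Q283.FG.Ens y D₀ X | ∀ D, Q283.FG.FR y D₀ q D →
        (fun l => Q283.FT.rk2 (Q283.FT.twi D (twist (∏ j ∈ l, m j) e))) ∈ 𝒜}.ncard : ℕ) : ℝ) ≤
        (({q ∈ Q283.FG.Ens y D₀ X | ∀ D, Fits y D₀ q D → P D}.ncard : ℕ) : ℝ) := by
      exact_mod_cast Set.ncard_le_ncard h2 (hfin.subset fun q hq => hq.1)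
    have h4 : (∑' g : Finset (Fin n) → ℕ, if g ∈ 𝒜 then
        ∏ T, parityLaw (selmerRank (twist (D₀ * ∏ j ∈ T, m j) e)) (g T) else 0) =
        ∑' g : Finset (Fin n) → ℕ, if g ∈ 𝒜 then
          ∏ T, Q44.JQ.lawc (Q283.FT.par D₀ (twist (∏ j ∈ T, m j) e)) (g T) else 0 := by
      simp only [parity_eq, Q283.FT.par, htw]
      rfl
    rw [h4]
    unfold share
    rw [le_div_iff₀ hpos]
    have h5 := mul_le_mul_of_nonneg_right hηε hpos.le
    rw [sub_mul]
    linarith
  refine ⟨hfin, hne, fun N => ?_, ?_, fun 𝒯 D hT hD => ?_⟩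
  · have h1 := hshare {g | ∑ T, g T ≤ N} (fun D => rankOver M (twist D e) ≤ N) (fun D hD h => by
      rw [hrk D hD]
      exact (Finset.sum_le_sum fun T _ => hle D hD T).trans h)
    convert h1
    exact Iff.rfl
  · have h1 := hshare {g | ∀ T ∈ Finset.univ.erase (∅ : Finset (Fin n)), g T = 0}
      (fun D => rankOver M (twist D e) = rankOver F (twist D e)) (fun D hD h => by
        have h' : ∀ T ∈ Finset.univ.erase (∅ : Finset (Fin n)), selmerRank (twist (D * ∏ j ∈ T, m j) e) = 0 := h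
        rw [hrk D hD, ← Finset.add_sum_erase _ _ (Finset.mem_univ (∅ : Finset (Fin n))),
          Finset.sum_eq_zero (fun T hT => Nat.le_zero.1 ((hle D hD T).trans (h' T hT).le)), add_zero,
          Finset.prod_empty, mul_one])
    have h2 : (∑' g : Finset (Fin n) → ℕ, if g ∈ {g : Finset (Fin n) → ℕ |
        ∀ T ∈ Finset.univ.erase (∅ : Finset (Fin n)), g T = 0} then
        ∏ T, parityLaw (selmerRank (twist (D₀ * ∏ j ∈ T, m j) e)) (g T) else 0) =
        ∏ T ∈ Finset.univ.erase (∅ : Finset (Fin n)), parityLaw (selmerRank (twist (D₀ * ∏ j ∈ T, m j) e)) 0 := by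
      simp only [parity_eq]
      rw [← (marg0 (fun T => ((selmerRank (twist (D₀ * ∏ j ∈ T, m j) e) : ℕ) : ZMod 2))
        (Finset.univ.erase (∅ : Finset (Fin n)))).tsum_eq]
      refine tsum_congr fun g => ?_
      by_cases h : ∀ T ∈ Finset.univ.erase (∅ : Finset (Fin n)), g T = 0
      · rw [if_pos h, if_pos (show g ∈ {g : Finset (Fin n) → ℕ |
          ∀ T ∈ Finset.univ.erase (∅ : Finset (Fin n)), g T = 0} from h)]
      · rw [if_neg h, if_neg (show ¬ g ∈ {g : Finset (Fin n) → ℕ |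
          ∀ T ∈ Finset.univ.erase (∅ : Finset (Fin n)), g T = 0} from h)]
    rw [← h2]
    convert h1
  · have hcard : 0 < (𝒯.card : ℝ) := by
      obtain ⟨q, hq⟩ := hne
      exact_mod_cast Finset.card_pos.2 ⟨q, (hT q).2 hq⟩
    have hF : ∀ q ∈ 𝒯, Q283.FG.FR y D₀ q (D q) := fun q hq =>
      (fits_iff ((hT q).1 hq).1.1 fun i => (((hT q).1 hq).1.2 i).1).1 (hD q hq)
    have h1 : ∀ T : Finset (Fin n), ∑ q ∈ 𝒯, (selmerRank (twist (D q * ∏ j ∈ T, m j) e) : ℝ) <
        (if Even (selmerRank (twist (D₀ * ∏ j ∈ T, m j) e)) then 1.21 else 1.33) * (𝒯.card : ℝ) := by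
      intro T
      have h2 := (abs_le.1 (hmean 𝒯 D hT hF T).1).2
      simp only [htw, Q283.FT.par] at h2
      have h3 : ∑ q ∈ 𝒯, (selmerRank (twist (D q * ∏ j ∈ T, m j) e) : ℝ) =
          ∑ q ∈ 𝒯, (Q283.FT.rk2 (twist (D q * ∏ j ∈ T, m j) e) : ℝ) := rfl
      rw [h3]
      by_cases hev : Even (selmerRank (twist (D₀ * ∏ j ∈ T, m j) e))
      · rw [if_pos hev]
        have h5 : ((Q283.FT.rk2 (twist (D₀ * ∏ j ∈ T, m j) e) : ℕ) : ZMod 2) = 0 :=
          (ZMod.natCast_eq_zero_iff_even).2 hev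
        rw [h5] at h2
        nlinarith
      · rw [if_neg hev]
        have h5 : ((Q283.FT.rk2 (twist (D₀ * ∏ j ∈ T, m j) e) : ℕ) : ZMod 2) = 1 :=
          (ZMod.natCast_eq_one_iff_odd).2 (Nat.not_even_iff_odd.1 hev)
        rw [h5] at h2
        nlinarith
    rw [div_lt_iff₀ hcard, Finset.sum_mul]
    have h6 : ∑ q ∈ 𝒯, (rankOver M (twist (D q) e) : ℝ) ≤
        ∑ T : Finset (Fin n), ∑ q ∈ 𝒯, (selmerRank (twist (D q * ∏ j ∈ T, m j) e) : ℝ) := by
      rw [Finset.sum_comm]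
      refine Finset.sum_le_sum fun q hq => ?_
      rw [hrk (D q) (hD q hq).ne]
      push_cast
      refine Finset.sum_le_sum fun T _ => ?_
      exact_mod_cast hle (D q) (hD q hq).ne T
    exact lt_of_le_of_lt h6 (Finset.sum_lt_sum_of_nonempty Finset.univ_nonempty fun T _ => h1 T)

end Pool.Agent.Results.MP_cd906c_nt.RanksInMultiquadraticExtensions
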