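import Mathlib
import Pool.Agent.Q283.NR.R10

/-!
# The rank and the order of vanishing do not change over the fields inside almost every integer

`E_N : y² + N y = x³`, a curve over `ℚ` with complex multiplication, `3`-isogenous to `x³ + y³ = N`. A number
`N` is a BASE if it is cube-free, prime to `3`, not `±1` modulo `9`, with exactly one prime divisor `2` modulo
`3`. For a positive integer `D` let `D'` be the product of its prime divisors `1` modulo `3`, and let
`d = (d_1, ..., d_n)` be a tuple of divisors `1` modulo `9` of `D'²`, independent modulo cubes. The FIELDS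
INSIDE `D` of the tuple are all the number fields `F` generated by cube roots of the `d_i` and the cube roots
of unity in `F`: the (not Galois) field `ℚ(∛d_1, ..., ∛d_n)` of degree `3 ^ n` and its Galois closure, of
degree `2 · 3 ^ n`.

* STABILITY. If for all the nonzero vectors `e` of exponents `0, 1, 2` the twist of `E_N` by
  `d_1 ^ e_1 ⋯ d_n ^ e_n` is good, that is, has finitely many rational points and `Ш[3^∞] = 0`
  (`NoNewPart N d`; there is no condition on `E_N` itself), then for all the fields `F` of the tuple, with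
  `r = [F : ℚ] / 3 ^ n`, `r = 1` or `r = 2`:
  `rank E_N(F) = r · rank E_N(ℚ)` and `ord_{s=1} L(E_N/F, s) = r · ord_{s=1} L(E_N/ℚ, s)` for the entire
  continuations of the Euler products. So the conjecture of Birch and Swinnerton-Dyer (rank part) for `E_N`
  over `F` is EQUIVALENT to the conjecture for `E_N` over `ℚ`. If `E_N` itself is good, then `E_N(F)` is
  finite, `L(E_N/F, 1) ≠ 0` (so the conjecture is true for `E_N` over `F`), and `Ш(E_N/F)[3^∞]` is killed by
  `3 ^ n`.
* EXACT LAW. There is ONE set `S` of positive integers, of NATURAL DENSITY `1`, and of relative density `1`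
  also in the thin set of the split numbers (`D = D'`), such that for all `n`, all finite families
  `N_1, ..., N_M` of bases (different, `N_j N_l` no cube), all `ε > 0` and all large `D` in `S` the following
  holds for the tuples `d` of length `n` inside `D`, with `p = c ^ (3 ^ n - 1)`,
  `c = ∏_{i ≥ 1} (1 - 3^{-i}) = 0.5601…`:
  (1) for every set `A` of indices the share of the tuples `d` such that `NoNewPart (N_j) d` holds exactly for
      the `j` in `A` is within `ε` of `p ^ |A| (1 - p) ^ (M - |A|)`;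
  (2) for a share `≥ p ^ M - ε` of the tuples, over all the fields of the tuple, rank and order are stable for
      ALL the `E_{N_j}` at once, and for a share `≥ 1 - (1 - p) ^ M - ε` they are stable for one of them
      at least (so for almost all the fields inside almost all integers, if `M` is large);
  (3) the share of the tuples for which the frequency of the `j` with `NoNewPart (N_j) d` differs from `p`
      by `η` or more is at most `2 exp (- η² M / 4) + ε`.
  The tuples are at least the share `1 - ε` of all the tuples of divisors `1` modulo `9` of `D'²`.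
-/

set_option autoImplicit false

open scoped Classical

namespace Pool.Agent.Results.MP_cd906c_nt.StabilityInsideDivisors

open Filter NumberField IsDedekindDomain

/-- The curve `E_N : y² + N y = x³` over `ℚ`. -/
def curve (N : ℕ) : WeierstrassCurve ℚ := ⟨0, 0, N, 0, 0⟩

/-- The base numbers: cube-free, prime to `3`, not `±1` modulo `9`, exactly one prime divisor is `2`
modulo `3`. -/
def IsBase (N : ℕ) : Prop :=
  N ≠ 0 ∧ ¬ 3 ∣ N ∧ (∀ p : ℕ, p.Prime → ¬ p ^ 3 ∣ N) ∧ N % 9 ≠ 1 ∧ N % 9 ≠ 8 ∧
    ∃ q : ℕ, q.Prime ∧ q % 3 = 2 ∧ q ∣ N ∧ ∀ p : ℕ, p.Prime → p ∣ N → p ≠ q → p % 3 = 1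

/-- The cube-free part of `n`. -/
def cubeFree (n : ℕ) : ℕ := ∏ p ∈ n.primeFactors, p ^ (n.factorization p % 3)

/-- The split numbers: squarefree, all prime divisors are `1` modulo `3`. -/
def Split (D : ℕ) : Prop := Squarefree D ∧ ∀ p : ℕ, p.Prime → p ∣ D → p % 3 = 1

/-- The product of the prime divisors `1` modulo `3` of `D`. -/
def splitPart (D : ℕ) : ℕ := ∏ p ∈ D.primeFactors.filter (fun p => p % 3 = 1), p

/-- The divisors `1` modulo `9` of the square of the split part of `D`. -/
def divs (D : ℕ) : Finset ℕ := (splitPart D ^ 2).divisors.filter fun d => d % 9 = 1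

/-- No product of the powers `d_i ^ e_i`, `e_i = 0, 1, 2`, is a cube, unless all the `e_i` are zero. -/
def Independent {n : ℕ} (d : Fin n → ℕ) : Prop :=
  ∀ e : Fin n → ZMod 3, e ≠ 0 → ∀ b : ℕ, ∏ i, d i ^ (e i).val ≠ b ^ 3

/-- The tuples inside `D`. -/
noncomputable def tuples (n D : ℕ) : Finset (Fin n → ℕ) :=
  (Fintype.piFinset fun _ : Fin n => divs D).filter Independent

/-- `F` is generated by cube roots of the `d_i` and the cube roots of unity in `F`. -/
def IsMulticubic {n : ℕ} (d : Fin n → ℕ) (F : Type) [Field F] [NumberField F] : Prop :=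
  ∃ θ : Fin n → F, (∀ i, θ i ^ 3 = (d i : F)) ∧
    IntermediateField.adjoin ℚ ({x : F | x ^ 3 = 1} ∪ Set.range θ) = ⊤

/-- `E_N(ℚ)` is finite and `Ш(E_N / ℚ)[3^∞] = 0`. -/
def Good (N : ℕ) : Prop :=
  Finite (curve N).toAffine.Point ∧
    ∀ (k : ℕ) (x : Pool.Agent.TH841.SH.D.Sha (curve N)), 3 ^ k • x = 0 → x = 0

/-- All the twists of `E_N` by `d_1 ^ e_1 ⋯ d_n ^ e_n`, `e ≠ 0`, are good. -/
def NoNewPart {n : ℕ} (N : ℕ) (d : Fin n → ℕ) : Prop :=
  ∀ e : Fin n → ZMod 3, e ≠ 0 → Good (cubeFree (N * ∏ i, d i ^ (e i).val))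

/-- `a_v(E_N)`: the norm of `v` minus the number of the affine points of `y² + N y = x³` over the
residue field of `v`. -/
noncomputable def a {F : Type} [Field F] [NumberField F] (N : ℕ) (v : HeightOneSpectrum (𝓞 F)) : ℤ :=
  ((Ideal.absNorm v.asIdeal : ℕ) : ℤ) -
    ((Nat.card {x : (𝓞 F ⧸ v.asIdeal) × (𝓞 F ⧸ v.asIdeal) //
      x.2 ^ 2 + (N : 𝓞 F ⧸ v.asIdeal) * x.2 = x.1 ^ 3} : ℕ) : ℤ)

/-- The Euler factor of `L(E_N/F, s)` at `v`; it is replaced by `1` if `v` divides `M`. -/
noncomputable def factor {F : Type} [Field F] [NumberField F] (M N : ℕ) (s : ℂ)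
    (v : HeightOneSpectrum (𝓞 F)) : ℂ :=
  if ((M : ℕ) : 𝓞 F) ∈ v.asIdeal then 1 else
    (1 - ((a N v : ℤ) : ℂ) * ((Ideal.absNorm v.asIdeal : ℕ) : ℂ) ^ (-s) +
      ((Ideal.absNorm v.asIdeal : ℕ) : ℂ) ^ (1 - 2 * s))⁻¹

/-- `L` is an entire function, equal for `Re s > 3/2` to the Euler product of `E_N` over the places of `F`
that do not divide `M`. -/
def IsLFunction (M N : ℕ) (F : Type) [Field F] [NumberField F] (L : ℂ → ℂ) : Prop :=
  Differentiable ℂ L ∧ ∀ s : ℂ, 3 / 2 < s.re → HasProd (factor (F := F) M N s) (L s)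

/-- The rank of `E_N(F)`. -/
noncomputable def rank (N : ℕ) (F : Type) [Field F] [NumberField F] : ℕ :=
  Module.finrank ℤ ((curve N).baseChange F).toAffine.Point

/-- Stability of rank and order, and the equivalence of the conjectures over `F` and over `ℚ`. Here
`Sha W` is the group of the continuous cocycles `Gal(F̄/F) → W(F̄)` which are coboundaries at all places of
`F`, modulo the coboundaries. -/
def Stable {n : ℕ} (N : ℕ) (d : Fin n → ℕ) (F : Type) [Field F] [NumberField F] : Prop :=
  ∃ r : ℕ, (r = 1 ∨ r = 2) ∧ Module.finrank ℚ F = r * 3 ^ n ∧ rank N F = r * rank N ℚ ∧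
    (∃ L₀ L : ℂ → ℂ, IsLFunction (6 * N) N ℚ L₀ ∧ IsLFunction (6 * N * ∏ i, d i) N F L ∧
      analyticOrderAt L 1 = r * analyticOrderAt L₀ 1 ∧
      (analyticOrderAt L 1 = (rank N F : ℕ∞) ↔ analyticOrderAt L₀ 1 = (rank N ℚ : ℕ∞)) ∧
      (Good N → L₀ 1 ≠ 0 ∧ L 1 ≠ 0)) ∧
    (Good N → Finite ((curve N).baseChange F).toAffine.Point ∧
      ∀ (k : ℕ) (x : Pool.Agent.TH841.NF.D.Sha ((curve N).baseChange F)),
        3 ^ k • x = 0 → 3 ^ n • x = 0)

/-- The share of the tuples inside `D` with the property `P`. -/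
noncomputable def share (n D : ℕ) (P : (Fin n → ℕ) → Prop) : ℝ :=
  (((tuples n D).filter P).card : ℝ) / (tuples n D).card

/-- The number of the `j` with `NoNewPart (N j) d`. -/
noncomputable def number {M n : ℕ} (N : Fin M → ℕ) (d : Fin n → ℕ) : ℕ :=
  (Finset.univ.filter fun j => NoNewPart (N j) d).card

/-- the number of the `D ≤ X` with the property `P` -/
noncomputable def count (P : ℕ → Prop) (X : ℕ) : ℕ := ((Finset.Icc 1 X).filter P).card

/-- `c = ∏_{i ≥ 1} (1 - 3^{-i})` -/
noncomputable def c : ℝ := ∏' i : ℕ, (1 - (1 / 3 : ℝ) ^ (i + 1))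

section proof

open Q283.Q3B Q283.Q3N Q283.ND Q283.NJ Q283.NK Q283.NR

theorem curve_eq (N : ℕ) :
    curve N = Pool.Agent.Y703.CT.EQ (Pool.Agent.Y703.CT.WD ((N : ℕ) : ℤ)) := by
  ext <;> simp [curve, Pool.Agent.Y703.CT.WD]

theorem base_iff (N : ℕ) : IsBase N ↔ Pool.Agent.Y703.CT.Cls N := by
  unfold IsBase Pool.Agent.Y703.CT.Cls Pool.Agent.Y703.CT.Base
  tauto

theorem good_iff (N : ℕ) : Good N ↔ Pool.Agent.Y703.CT.Triv3 N := by
  unfold Good Pool.Agent.Y703.CT.Triv3
  rw [curve_eq]

theorem rank_eq (N : ℕ) (F : Type) [Field F] [NumberField F] :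
    rank N F = Cardinal.toNat (rF N F) := by
  unfold rank rF rk Module.finrank
  rw [curve_eq]

theorem tuples_eq (n D : ℕ) : tuples n D = Ik n (sp D) := by
  ext d
  rw [mem_Ik]
  unfold tuples
  rw [Finset.mem_filter, Fintype.mem_piFinset]
  exact Iff.rfl

theorem dkk_card {ν : Type} [Fintype ν] (D : ℕ) :
    (DkK (fun _ : ν => 1) D).card = (Dk 1 D).card ^ Fintype.card ν := by
  unfold DkK
  rw [Fintype.card_piFinset, Finset.prod_const, Finset.card_univ]

theorem noNew_iff {n N D : ℕ} {d : Fin n → ℕ} (hN : Pool.Agent.Y703.CT.Cls N)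
    (hd : d ∈ Ik n (sp D)) : NoNewPart N d ↔ NN0 n N d := by
  refine forall_congr' fun e => forall_congr' fun _ => ?_
  rw [good_iff]
  exact (rr_triv (cls_fo hN (mem_Ik.1 hd).1).1).symm

theorem enat_mul {r : ℕ} (hr : r ≠ 0) (x y : ℕ∞) : (r : ℕ∞) * x = r * y ↔ x = y := by
  constructor
  · intro h
    have hr' : (r : ℕ∞) ≠ 0 := by exact_mod_cast hr
    induction x using ENat.recTopCoe with
    | top =>
      induction y using ENat.recTopCoe with
      | top => rfl
      | coe y =>
        rw [ENat.mul_top hr', ← Nat.cast_mul] at h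
        exact absurd h.symm (ENat.natCast_ne_top _)
    | coe x =>
      induction y using ENat.recTopCoe with
      | top =>
        rw [ENat.mul_top hr', ← Nat.cast_mul] at h
        exact absurd h (ENat.natCast_ne_top _)
      | coe y =>
        have h1 : r * x = r * y := by exact_mod_cast h
        rw [Nat.eq_of_mul_eq_mul_left (Nat.pos_of_ne_zero hr) h1]
  · rintro rfl
    rfl

theorem stab {n N D : ℕ} {d : Fin n → ℕ} (hN : Pool.Agent.Y703.CT.Cls N) (hd : d ∈ Ik n (sp D))
    (h : NoNewPart N d) (F : Type) [Field F] [NumberField F] (hF : IsMulticubic d F) :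
    Stable N d F := by
  obtain ⟨θ, hθ, hgen⟩ := hF
  obtain ⟨r, hr, hdeg, hrk, ⟨L₀, L, g1, g2, g3, g4, g5⟩, g6⟩ :=
    stable hN hd ((noNew_iff hN hd).1 h) hθ hgen
  have hr0 : r ≠ 0 := by omega
  have hrk' : rank N F = r * rank N ℚ := by
    rw [rank_eq, rank_eq]
    exact hrk
  have hL1 : Good N → L 1 ≠ 0 := by
    intro hG
    obtain ⟨⟨-, L', k1, k2, k3⟩, -⟩ := g6 ((good_iff N).1 hG)
    have h1 : Set.EqOn L L' {s : ℂ | 3 / 2 < s.re} := fun s hs => (g4 s hs).unique (k2 s hs)
    have h2 : L = L' := by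
      have hA : AnalyticOnNhd ℂ L Set.univ := fun z _ => g3.analyticAt z
      have hA' : AnalyticOnNhd ℂ L' Set.univ := fun z _ => k1.analyticAt z
      refine funext fun z => ?_
      refine hA.eqOn_of_preconnected_of_eventuallyEq hA' isPreconnected_univ (z₀ := 2) trivial ?_
        (Set.mem_univ z)
      have ho : IsOpen {s : ℂ | 3 / 2 < s.re} := isOpen_lt continuous_const Complex.continuous_re
      exact Filter.eventuallyEq_of_mem (ho.mem_nhds (by norm_num)) h1
    rw [h2]
    exact k3
  refine ⟨r, hr, hdeg, hrk', ⟨L₀, L, ⟨g1, g2⟩, ⟨g3, g4⟩, g5, ?_, fun hG => ⟨?_, hL1 hG⟩⟩,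
    fun hG => ?_⟩
  · rw [g5, hrk']
    push_cast
    exact enat_mul hr0 _ _
  · intro h0
    have h1 : analyticOrderAt L 1 = 0 := (g3.analyticAt 1).analyticOrderAt_eq_zero.2 (hL1 hG)
    rw [g5] at h1
    have h2 : analyticOrderAt L₀ 1 ≠ 0 := by
      rw [ne_eq, (g1.analyticAt 1).analyticOrderAt_eq_zero, not_not]
      exact h0
    rcases mul_eq_zero.1 h1 with h3 | h3
    · exact hr0 (by exact_mod_cast h3)
    · exact h2 h3
  · obtain ⟨⟨k1, -⟩, k2⟩ := g6 ((good_iff N).1 hG)
    rw [curve_eq]
    exact ⟨k1, k2⟩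

theorem share_mono {n D : ℕ} {P Q : (Fin n → ℕ) → Prop} (h : ∀ d ∈ tuples n D, P d → Q d) :
    share n D P ≤ share n D Q := by
  unfold share
  refine div_le_div_of_nonneg_right ?_ (Nat.cast_nonneg _)
  rw [Nat.cast_le]
  refine Finset.card_le_card fun d hd => ?_
  rw [Finset.mem_filter] at hd ⊢
  exact ⟨hd.1, h d hd.1 hd.2⟩

theorem share_not {n D : ℕ} (hne : (tuples n D).Nonempty) (P : (Fin n → ℕ) → Prop) :
    share n D P = 1 - share n D fun d => ¬ P d := by
  unfold share
  have hpos : (0 : ℝ) < (tuples n D).card := by exact_mod_cast Finset.card_pos.2 hne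
  have h := Finset.card_filter_add_card_filter_not (s := tuples n D) (fun d => P d)
  have h' : (((tuples n D).filter fun d => P d).card : ℝ) +
      (((tuples n D).filter fun d => ¬ P d).card : ℝ) = (tuples n D).card := by exact_mod_cast h
  rw [eq_sub_iff_add_eq, ← add_div]
  refine (congrArg (fun x : ℝ => x / ((tuples n D).card : ℝ)) ?_).trans (div_self hpos.ne')
  refine Eq.trans ?_ h'
  congr 2
  exact Pool.Agent.XLK.fcc fun _ _ => Iff.rfl

end proof

open Q283.Q3B Q283.Q3N Q283.ND Q283.NJ Q283.NK Q283.NR in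
theorem result :
    (∀ (n N D : ℕ) (d : Fin n → ℕ), IsBase N → d ∈ tuples n D → NoNewPart N d →
      ∀ (F : Type) [Field F] [NumberField F], IsMulticubic d F → Stable N d F) ∧
    (∀ D : ℕ, Split (splitPart D) ∧ (Split D → splitPart D = D)) ∧
    (∃ S : ℕ → Prop, Tendsto (fun X : ℕ => (count S X : ℝ) / X) atTop (nhds 1) ∧
      Tendsto (fun X : ℕ => (count (fun D => Split D ∧ S D) X : ℝ) / count Split X) atTop (nhds 1) ∧
      ∀ (M n : ℕ) (N : Fin M → ℕ), (∀ j, IsBase (N j)) →
      (∀ j l, j ≠ l → N j ≠ N l ∧ ¬ ∃ b : ℕ, N j * N l = b ^ 3) →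
      ∀ ε : ℝ, 0 < ε → ∃ D₀ : ℕ, ∀ D : ℕ, D₀ ≤ D → S D →
        (tuples n D).Nonempty ∧ (1 - ε) * ((divs D).card : ℝ) ^ n ≤ (tuples n D).card ∧
        (∀ A : Finset (Fin M), |share n D (fun d => ∀ j, (NoNewPart (N j) d ↔ j ∈ A)) -
          (c ^ (3 ^ n - 1)) ^ A.card * (1 - c ^ (3 ^ n - 1)) ^ (M - A.card)| ≤ ε) ∧
        (c ^ (3 ^ n - 1)) ^ M - ε ≤ share n D (fun d =>
          ∀ (F : Type) [Field F] [NumberField F], IsMulticubic d F → ∀ j, Stable (N j) d F) ∧
        1 - (1 - c ^ (3 ^ n - 1)) ^ M - ε ≤ share n D (fun d => ∃ j,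
          ∀ (F : Type) [Field F] [NumberField F], IsMulticubic d F → Stable (N j) d F) ∧
        (0 < M → ∀ η : ℝ, 0 < η →
          share n D (fun d => η ≤ |(number N d : ℝ) / M - c ^ (3 ^ n - 1)|) ≤
            2 * Real.exp (-(η ^ 2 * M / 4)) + ε)) ∧
    0.56 < c ∧ c < 0.5602 := by
  have hc3 : c = Pool.Agent.Y703.CX.c3 := rfl
  have hc1 : 0.56 < c ∧ c < 0.5602 := by
    rw [hc3]
    exact ⟨Q283.ND.c3_lt.2, Q283.ND.c3_lt.1⟩
  refine ⟨fun n N D d hN hd hG F _ _ hF => ?_, fun D => ⟨sp_ac D, fun h => sp_split h⟩, ?_, hc1⟩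
  · rw [tuples_eq] at hd
    exact stab ((base_iff N).1 hN) hd hG F hF
  · obtain ⟨S, hS, hS', hJ, -, -⟩ := mainS
    refine ⟨S, ?_, Q155.NL.tendsto_of_alm (C := Dc) ⟨1, le_rfl, squarefree_one, fun p hp hd =>
      absurd (Nat.dvd_one.1 hd) hp.one_lt.ne'⟩ hS', fun M n N hN hne ε hε => ?_⟩
    · have h1 := Q155.NL.tendsto_of_alm (C := fun _ => True) ⟨1, le_rfl, trivial⟩ hS
      refine h1.congr fun X => ?_
      have h2 : Q155.NL.cnt (fun _ => True) X = X := by
        have h0 : Q155.NL.cs (fun _ => True) X = Finset.Icc 1 X := by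
          ext D
          rw [Q155.NL.mem_cs, Finset.mem_Icc]
          exact ⟨fun h => h.1, fun h => ⟨h, trivial⟩⟩
        unfold Q155.NL.cnt
        rw [h0, Nat.card_Icc]
        omega
      rw [h2]
      congr 2
      unfold Q155.NL.cnt Q155.NL.cs count
      congr 1
      ext D
      simp
    · have hC : ∀ j, Pool.Agent.Y703.CT.Cls (N j) := fun j => (base_iff (N j)).1 (hN j)
      obtain ⟨p, hp⟩ : ∃ p : ℝ, p = c ^ (3 ^ n - 1) := ⟨_, rfl⟩
      have hp0 : 0 ≤ p := by
        rw [hp]
        exact pow_nonneg (by linarith [hc1.1]) _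
      have hp1 : p ≤ 1 := by
        rw [hp]
        exact pow_le_one₀ (by linarith [hc1.1]) (by linarith [hc1.2])
      have he0 : 0 < ε / 2 ^ M := by positivity
      have hee : ε / 2 ^ M ≤ ε := div_le_self hε.le (one_le_pow₀ (by norm_num))
      obtain ⟨D₀, hD₀⟩ := eventually_atTop.1 (hJ M n N hC hne (ε / 2 ^ M) he0)
      refine ⟨D₀, fun D hD hSD => ?_⟩
      obtain ⟨k1, k2, k3⟩ := hD₀ D hD hSD
      rw [← hp]
      have hne' : (tuples n D).Nonempty := by rw [tuples_eq]; exact k2
      have hpos : (0 : ℝ) < (tuples n D).card := by exact_mod_cast Finset.card_pos.2 hne'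
      have hA : ∀ A : Finset (Fin M), |share n D (fun d => ∀ j, (NoNewPart (N j) d ↔ j ∈ A)) -
          p ^ A.card * (1 - p) ^ (M - A.card)| ≤ ε / 2 ^ M := by
        intro A
        have h2 := k3 A
        rw [← hc3, ← hp] at h2
        unfold share
        refine div_abs hpos ?_
        rw [tuples_eq]
        refine abs_swap (Pool.Agent.XLK.fcc fun d hd => ?_) h2
        refine forall_congr' fun j => ?_
        rw [noNew_iff (hC j) hd]
      have hpat : ∀ J : ℕ → Prop, |share n D (fun d => J (number N d)) -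
          ∑ A : Finset (Fin M), (if J A.card then wt p A else 0)| ≤ ε := by
        intro J
        have h2 := pat_fin (tuples n D) M (fun j d => NoNewPart (N j) d) (p := p)
          (ε := ε / 2 ^ M) (fun A => ?_) J
        · have h3 : share n D (fun d => J (number N d)) = (((tuples n D).filter fun d =>
              J (Finset.univ.filter fun k => NoNewPart (N k) d).card).card : ℝ) /
                (tuples n D).card := by
            unfold share number
            congr 2
          rw [h3]
          refine h2.trans (le_of_eq ?_)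
          field_simp
        · have h3 := hA A
          unfold share at h3
          unfold wt
          convert h3
      refine ⟨hne', ?_, fun A => (hA A).trans hee, ?_, ?_, fun hM η hη => ?_⟩
      · have h1 : ((DkK (fun _ : Fin n => 1) (sp D)).card : ℝ) = ((divs D).card : ℝ) ^ n := by
          have h2 : (DkK (fun _ : Fin n => 1) (sp D)).card = (divs D).card ^ n := by
            rw [dkk_card, Fintype.card_fin]
            rfl
          rw [h2]
          push_cast
          rfl
        rw [tuples_eq, ← h1]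
        refine le_trans ?_ k1
        refine mul_le_mul_of_nonneg_right (by linarith) (Nat.cast_nonneg _)
      · have h2 := (abs_le.1 (hA Finset.univ)).1
        rw [Finset.card_univ, Fintype.card_fin, Nat.sub_self, pow_zero, mul_one] at h2
        have h3 : share n D (fun d => ∀ j, (NoNewPart (N j) d ↔ j ∈ (Finset.univ : Finset (Fin M)))) ≤
            share n D (fun d => ∀ (F : Type) [Field F] [NumberField F], IsMulticubic d F →
              ∀ j, Stable (N j) d F) :=
          share_mono fun d hd h F _ _ hF j => by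
            rw [tuples_eq] at hd
            exact stab (hC j) hd ((h j).2 (Finset.mem_univ j)) F hF
        linarith
      · have h2 := (abs_le.1 (hA ∅)).2
        rw [Finset.card_empty, Nat.sub_zero, pow_zero, one_mul] at h2
        have h3 : share n D (fun d => ∃ j, NoNewPart (N j) d) ≤ share n D (fun d => ∃ j,
            ∀ (F : Type) [Field F] [NumberField F], IsMulticubic d F → Stable (N j) d F) :=
          share_mono fun d hd ⟨j, h⟩ => ⟨j, fun F _ _ hF => by
            rw [tuples_eq] at hd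
            exact stab (hC j) hd h F hF⟩
        have h4 : share n D (fun d => ¬ ∃ j, NoNewPart (N j) d) ≤
            share n D (fun d => ∀ j, (NoNewPart (N j) d ↔ j ∈ (∅ : Finset (Fin M)))) :=
          share_mono fun d _ h j => by
            refine ⟨fun h' => absurd ⟨j, h'⟩ h, fun h' => absurd h' (Finset.notMem_empty j)⟩
        rw [share_not hne'] at h3
        linarith
      · have h2 := (abs_le.1 (hpat fun m => η ≤ |(m : ℝ) / M - p|)).2
        have h3 := wt_tail hp0 hp1 hM hη
        linarith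

end Pool.Agent.Results.MP_cd906c_nt.StabilityInsideDivisors
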